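import Pool.Agent.H33.LocGen

set_option autoImplicit false

namespace Pool.Agent.Results.MP_baf67b_al.Pos

open Finset MvPolynomial Pool.Agent.H33.LocGen Pointwise

variable {K : Type} [Field K] {N : ℕ}

/-- Zariski closed subgroups of the diagonal group. -/
def ZClosed (H : Subgroup (Fin N → Kˣ)) : Prop :=
  ∃ P : Set (MvPolynomial (Fin N) K), ∀ g, g ∈ H ↔ ∀ q ∈ P, eval (fun j => (g j : K)) q = 0

/-- Regular functions on `G` (restrictions of Laurent polynomials). -/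
def Reg (G : Subgroup (Fin N → Kˣ)) (φ : G → Kˣ) : Prop :=
  ∃ (q : MvPolynomial (Fin N) K) (k : ℕ), ∀ g : G,
    (φ g : K) * (∏ j, (g.1 j : K)) ^ k = eval (fun j => (g.1 j : K)) q

/-- Homomorphisms from `G` to the multiplicative group. -/
def IsHom (G : Subgroup (Fin N → Kˣ)) (φ : G → Kˣ) : Prop := ∀ x y, φ (x * y) = φ x * φ y

/-- Characters of `G`: homomorphisms that are regular functions. -/
def Ch (G : Subgroup (Fin N → Kˣ)) (χ : G → Kˣ) : Prop := IsHom G χ ∧ Reg G χ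

lemma ann {H : Subgroup (Fin N → Kˣ)} (hH : ZClosed H) (z : Fin N → Kˣ)
    (h : ∀ a : Fin N → ℤ, (∀ x ∈ H, ∏ j, x j ^ a j = 1) → ∏ j, z j ^ a j = 1) : z ∈ H := by
  classical
  obtain ⟨P, hP⟩ := hH
  refine (hP z).2 fun q hq => ?_
  let χ : (Fin N →₀ ℕ) → H →* K := fun d => (Units.coeHom K).comp
    (∏ j, ((Pi.evalMonoidHom _ j).comp H.subtype) ^ d j)
  have hχ : ∀ d x, χ d x = ∏ j, (x.1 j : K) ^ d j := fun d x => by simp [χ]
  have k : ∀ d e, χ d = χ e → ∏ j, (z j : K) ^ d j = ∏ j, (z j : K) ^ e j := fun d e hd => by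
    have := h (fun j => (d j : ℤ) - e j) fun x hx => by
      have := congrArg (· ⟨x, hx⟩) hd
      simp only [hχ] at this
      simp only [zpow_sub, prod_mul_distrib, prod_inv_distrib, mul_inv_eq_one, zpow_natCast]
      exact_mod_cast this
    simp only [zpow_sub, prod_mul_distrib, prod_inv_distrib, mul_inv_eq_one, zpow_natCast] at this
    exact_mod_cast this
  let v : (H →* K) → K := fun c => if h : ∃ d, χ d = c then ∏ j, (z j : K) ^ h.choose j else 0
  have hv : ∀ d, v (χ d) = ∏ j, (z j : K) ^ d j := fun d => by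
    have : ∃ e, χ e = χ d := ⟨d, rfl⟩
    simp only [v, dif_pos this]
    exact k _ _ this.choose_spec
  have := congrArg (Finsupp.linearCombination K v) (linearIndependent_iff.1
    (linearIndependent_monoidHom H K) (∑ d ∈ q.support, Finsupp.single (χ d) (coeff d q)) (by
      funext x
      simpa [map_sum, hχ, eval_eq'] using (hP x).1 x.2 q hq))
  simpa [map_sum, hv, eval_eq'] using this

/-- The character group of `G` is generated by `r` elements. -/
def Gen (G : Subgroup (Fin N → Kˣ)) (r : ℕ) : Prop :=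
  ∃ f : Fin r → G → Kˣ, (∀ j, Ch G (f j)) ∧
    ∀ χ, Ch G χ → ∃ m : Fin r → ℤ, ∀ x, χ x = ∏ j, f j x ^ m j

/-- The coset `g H`. -/
def Cs (g : Fin N → Kˣ) (H : Subgroup (Fin N → Kˣ)) : Set (Fin N → Kˣ) :=
  g • (H : Set (Fin N → Kˣ))

theorem result (K : Type) [Field K] [IsAlgClosed K] (N : ℕ) (G : Subgroup (Fin N → Kˣ))
    (_hG : ZClosed G) (r : ℕ) (hf : Gen G r)
    (n : ℕ) (g : Fin n → Fin N → Kˣ) (H : Fin n → Subgroup (Fin N → Kˣ)) (hg : ∀ i, g i ∈ G)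
    (hH : ∀ i, ZClosed (H i) ∧ H i ≤ G) (h : ⋂ i, Cs (g i) (H i) = ∅) :
    ∃ J : Finset (Fin n), #J ≤ 1 + r ∧ ⋂ i ∈ J, Cs (g i) (H i) = ∅ := by
  obtain ⟨f0, hf0, hf⟩ := hf
  let f : Fin r → G →* Kˣ := fun j => MonoidHom.mk' (f0 j) (hf0 j).1
  unfold Cs at *
  classical
  by_contra! hc
  let ψ : G → (Fin r → ℤ) →ₗ[ℤ] Additive Kˣ := fun x =>
    Fintype.linearCombination ℤ fun j => Additive.ofMul (f j x)
  have hψ : ∀ x m, (ψ x m).toMul = ∏ j, f j x ^ m j := fun x m => by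
    simp [ψ, Fintype.linearCombination_apply, toMul_sum]
  let A : Fin n → AddSubgroup (Fin r → ℤ) := fun i =>
    ⨅ x : H i, (ψ ⟨x, (hH i).2 x.2⟩).toAddMonoidHom.ker
  have hA : ∀ i (x : G), x.1 ∈ g i • (H i : Set (Fin N → Kˣ)) → ∀ m ∈ A i,
      ψ x m = ψ ⟨g i, hg i⟩ m := by
    rintro i ⟨_, hx⟩ ⟨y, hy, rfl⟩ m hm
    have : (ψ ⟨y, (hH i).2 hy⟩ m).toMul = 1 :=
      congrArg Additive.toMul (AddSubgroup.mem_iInf.1 hm ⟨y, hy⟩)
    refine Additive.toMul.injective ?_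
    rw [hψ] at this
    rw [hψ, hψ, ← mul_one (∏ j, f j ⟨g i, hg i⟩ ^ m j), ← this, ← prod_mul_distrib]
    exact prod_congr rfl fun j _ => by rw [← mul_zpow, ← map_mul]; rfl
  let Φ : (∀ i, A i) →+ (Fin r → ℤ) := ∑ i, (A i).subtype.comp (Pi.evalAddMonoidHom _ i)
  let Ψ : (∀ i, A i) →+ Additive Kˣ :=
    ∑ i, (ψ ⟨g i, hg i⟩).toAddMonoidHom.comp ((A i).subtype.comp (Pi.evalAddMonoidHom _ i))
  have hk : Φ.ker ≤ Ψ.ker := fun a ha => glob _ a fun p hp => by
    obtain ⟨S, s1, s2, k, k1, k2⟩ := core hp (fun j : Fin r => (Pi.single j 1 : Fin r → ℤ))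
      (eq_top_iff.2 fun m _ => AddSubgroup.mem_closure_range_iff_of_fintype.2
        ⟨m, by ext; simp [Pi.single_apply]⟩) (⋃ i, (A i : Set _))
    choose c hc' using fun s : S => Set.mem_iUnion.1 (s1 s.2)
    have : ∀ i, ∃ x : G, ∀ j ∈ insert i (univ.image c), x.1 ∈ g j • (H j : Set (Fin N → Kˣ)) := by
      intro i
      obtain ⟨x, hx⟩ := hc (insert i (univ.image c)) ((card_insert_le ..).trans (by
        have : #(univ.image c) ≤ #S := card_image_le.trans (by simp)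
        omega))
      obtain ⟨y, hy, rfl⟩ := Set.mem_iInter₂.1 hx i (mem_insert_self ..)
      exact ⟨⟨_, G.mul_mem (hg i) ((hH i).2 hy)⟩, Set.mem_iInter₂.1 hx⟩
    choose x hx using this
    refine ⟨k, k1, ?_⟩
    rcases isEmpty_or_nonempty (Fin n) with _ | ⟨⟨i0⟩⟩
    · simp [Ψ]
    have e : ∀ i, ψ ⟨g i, hg i⟩ (k • (a i).1) = ψ (x i0) (k • (a i).1) := fun i => by
      rw [← hA i (x i) (hx i i (mem_insert_self ..)) _ ((A i).zsmul_mem (a i).2 k)]
      refine LinearMap.eqOn_span (fun s hs => ?_) (k2 _ (Set.mem_iUnion.2 ⟨i, (a i).2⟩))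
      rw [hA _ _ (hx i _ (mem_insert_of_mem (mem_image_of_mem c (mem_univ ⟨s, hs⟩)))) s (hc' _),
        hA _ _ (hx i0 _ (mem_insert_of_mem (mem_image_of_mem c (mem_univ ⟨s, hs⟩)))) s (hc' _)]
    have ha' : ∑ i, (a i).1 = 0 := by simpa [Φ] using ha
    have : Ψ (k • a) = ∑ i, ψ ⟨g i, hg i⟩ (k • (a i).1) := by
      simp only [Ψ, AddMonoidHom.finset_sum_apply]
      rfl
    rw [AddMonoidHom.mem_ker, this, sum_congr rfl fun i _ => e i, ← map_sum, ← smul_sum, ha',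
      smul_zero, map_zero]
  let _ : DivisibleBy (Additive Kˣ) ℕ := divisibleByOfSMulRightSurj _ _ fun {k} hk u => by
    obtain ⟨w, hw⟩ := IsAlgClosed.exists_pow_nat_eq (u.toMul : K) (Nat.pos_of_ne_zero hk)
    have : w ≠ 0 := by rintro rfl; exact u.toMul.ne_zero (by rw [← hw, zero_pow hk])
    exact ⟨.ofMul (.mk0 w this), Additive.toMul.injective (Units.ext (by simpa))⟩
  let _ := AddGroup.divisibleByIntOfDivisibleByNat (Additive Kˣ)
  obtain ⟨θ, hθ⟩ := (Module.Baer.of_divisible (Additive Kˣ)).extension_property_addMonoidHom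
    _ (QuotientAddGroup.kerLift_injective Φ) (QuotientAddGroup.lift _ Ψ hk)
  have hm : ∀ j, ∃ m, ∀ x : G, x.1 j = (ψ x m).toMul := fun j => by
    obtain ⟨m, hm⟩ := hf (fun x => x.1 j) ⟨fun _ _ => rfl, X j, 0, by simp⟩
    exact ⟨m, fun x => by rw [hψ]; exact hm x⟩
  choose m hm using hm
  refine Set.not_nonempty_iff_eq_empty.2 h ⟨fun j => (θ (m j)).toMul, Set.mem_iInter.2 fun i =>
    Set.mem_smul_set_iff_inv_smul_mem.2 (ann (hH i).1 _ fun a ha => ?_)⟩
  have e : ∀ x : G, (ψ x (∑ j, a j • m j)).toMul = ∏ j, x.1 j ^ a j := fun x => by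
    simp only [map_sum, map_zsmul, toMul_sum, toMul_zsmul, hm]
  have h1 : ∑ j, a j • m j ∈ A i := AddSubgroup.mem_iInf.2 fun x =>
    Additive.toMul.injective ((e _).trans (ha _ x.2))
  have h2 : θ (Φ (Pi.single i ⟨_, h1⟩)) = Ψ (Pi.single i ⟨_, h1⟩) :=
    congrArg (· (QuotientAddGroup.mk (Pi.single i ⟨_, h1⟩ : ∀ i, A i))) hθ
  have h3 : ∀ {D : Type} [AddCommGroup D] (φ : ∀ i, A i →+ D) (b : A i),
      (∑ j, (φ j).comp (Pi.evalAddMonoidHom _ j)) (Pi.single i b) = φ i b := fun φ b => by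
    rw [AddMonoidHom.finset_sum_apply, sum_eq_single i (fun j _ hj => by simp [hj]) (by simp)]
    simp
  rw [h3 fun j => (A j).subtype] at h2
  have h4 := (congrArg Additive.toMul (h2.trans
    (h3 (fun j => (ψ ⟨g j, hg j⟩).toAddMonoidHom.comp (A j).subtype) _))).trans (e ⟨g i, hg i⟩)
  simp only [AddSubgroup.coe_subtype, map_sum, map_zsmul, toMul_sum, toMul_zsmul] at h4
  simp [mul_zpow, prod_mul_distrib, h4]

end Pool.Agent.Results.MP_baf67b_al.Pos
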